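import Mathlib

/-!
# The degree of transitivity of `GL(V)` on the translates of a maximal filter

Let `V` be an infinite-dimensional vector space over a field `F` and `𝓕` a maximal filter of
subspaces of `V`.  We show that the action of `GL(V)` on the set of translates of `𝓕` is
`k`-transitive if and only if `k ≤ 2`.
-/

set_option autoImplicit false

namespace Pool.Agent.Results.MP_5cf805_al.FilterDegreeTwo

open Cardinal Submodule

universe u v

/-- filters of subspaces -/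
structure IsFilt {F : Type u} {V : Type v} [Field F] [AddCommGroup V] [Module F V]
    (𝓕 : Set (Submodule F V)) : Prop where
  top_mem : ⊤ ∈ 𝓕
  bot_notMem : ⊥ ∉ 𝓕
  up : ∀ U W : Submodule F V, U ∈ 𝓕 → U ≤ W → W ∈ 𝓕
  inf : ∀ U W : Submodule F V, U ∈ 𝓕 → W ∈ 𝓕 → U ⊓ W ∈ 𝓕

/-- maximal filters of subspaces -/
def IsMaxFilt {F : Type u} {V : Type v} [Field F] [AddCommGroup V] [Module F V]
    (𝓕 : Set (Submodule F V)) : Prop :=
  IsFilt 𝓕 ∧ ∀ 𝓖 : Set (Submodule F V), IsFilt 𝓖 → 𝓕 ⊆ 𝓖 → 𝓖 = 𝓕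

/-- the translate of a set of subspaces by an element of `GL(V)` -/
def translate {F : Type u} {V : Type v} [Field F] [AddCommGroup V] [Module F V]
    (g : V ≃ₗ[F] V) (𝓕 : Set (Submodule F V)) : Set (Submodule F V) :=
  (fun U : Submodule F V => U.map g.toLinearMap) '' 𝓕

/-- the set of all translates -/
def orbit {F : Type u} {V : Type v} [Field F] [AddCommGroup V] [Module F V]
    (𝓕 : Set (Submodule F V)) : Set (Set (Submodule F V)) :=
  {𝓖 | ∃ g : V ≃ₗ[F] V, 𝓖 = translate g 𝓕}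

/-- `GL(V)` is transitive on the ordered `k`-tuples of pairwise distinct translates of `𝓕`. -/
def KTransitive {F : Type u} {V : Type v} [Field F] [AddCommGroup V] [Module F V]
    (k : ℕ) (𝓕 : Set (Submodule F V)) : Prop :=
  ∀ a b : Fin k → Set (Submodule F V), (∀ i, a i ∈ orbit 𝓕) → Function.Injective a →
    (∀ i, b i ∈ orbit 𝓕) → Function.Injective b → ∃ g : V ≃ₗ[F] V, ∀ i, translate g (a i) = b i

section

variable {F : Type u} {V : Type v} [Field F] [AddCommGroup V] [Module F V]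
variable {𝓕 : Set (Submodule F V)}

/-- extension of partial isomorphisms -/
theorem exists_extend {M : Type v} [AddCommGroup M] [Module F M] (α β : M →ₗ[F] V)
    (hα : Function.Injective α) (hβ : Function.Injective β)
    (h : Module.rank F (V ⧸ LinearMap.range α) = Module.rank F (V ⧸ LinearMap.range β)) :
    ∃ g : V ≃ₗ[F] V, ∀ m, g (α m) = β m := by
  obtain ⟨C, hC⟩ := (LinearMap.range α).exists_isCompl
  obtain ⟨D, hD⟩ := (LinearMap.range β).exists_isCompl
  have h1 : Module.rank F C = Module.rank F D := by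
    rw [← (quotientEquivOfIsCompl _ _ hC).rank_eq, ← (quotientEquivOfIsCompl _ _ hD).rank_eq, h]
  obtain ⟨e⟩ := nonempty_linearEquiv_of_rank_eq h1
  let f : LinearMap.range α ≃ₗ[F] LinearMap.range β :=
    (LinearEquiv.ofInjective α hα).symm ≪≫ₗ LinearEquiv.ofInjective β hβ
  refine ⟨(prodEquivOfIsCompl _ _ hC).symm ≪≫ₗ f.prodCongr e ≪≫ₗ prodEquivOfIsCompl _ _ hD, ?_⟩
  intro m
  have e1 : (prodEquivOfIsCompl _ _ hC).symm (α m) = (LinearEquiv.ofInjective α hα m, 0) := by
    rw [LinearEquiv.symm_apply_eq]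
    simp
  simp only [LinearEquiv.trans_apply, e1]
  simp [f]

theorem translate_trans (g h : V ≃ₗ[F] V) (𝓖 : Set (Submodule F V)) :
    translate g (translate h 𝓖) = translate (h ≪≫ₗ g) 𝓖 := by
  unfold translate
  rw [Set.image_image]
  congr 1
  funext U
  exact (Submodule.map_comp h.toLinearMap g.toLinearMap U).symm

theorem translate_refl (𝓖 : Set (Submodule F V)) :
    translate (LinearEquiv.refl F V) 𝓖 = 𝓖 := by
  unfold translate
  have : (fun U : Submodule F V => U.map (LinearEquiv.refl F V).toLinearMap) = id := by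
    funext U
    exact Submodule.map_id U
  rw [this, Set.image_id]

theorem translate_symm (g : V ≃ₗ[F] V) (𝓖 : Set (Submodule F V)) :
    translate g.symm (translate g 𝓖) = 𝓖 := by
  rw [translate_trans, LinearEquiv.self_trans_symm, translate_refl]

theorem translate_symm' (g : V ≃ₗ[F] V) (𝓖 : Set (Submodule F V)) :
    translate g (translate g.symm 𝓖) = 𝓖 := by
  rw [translate_trans, LinearEquiv.symm_trans_self, translate_refl]

theorem mem_translate {g : V ≃ₗ[F] V} {𝓖 : Set (Submodule F V)} {U : Submodule F V} :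
    U ∈ translate g 𝓖 ↔ ∃ X ∈ 𝓖, X.map g.toLinearMap = U := Iff.rfl

theorem IsFilt.translate {g : V ≃ₗ[F] V} {𝓖 : Set (Submodule F V)} (h : IsFilt 𝓖) :
    IsFilt (translate g 𝓖) := by
  refine ⟨⟨⊤, h.top_mem, ?_⟩, ?_, ?_, ?_⟩
  · simp
  · rintro ⟨X, hX, hX0⟩
    have : X = ⊥ := by
      have h1 : X.map g.toLinearMap = ⊥ := hX0
      rwa [Submodule.map_eq_bot_iff] at h1
    exact h.bot_notMem (this ▸ hX)
  · rintro U W ⟨X, hX, rfl⟩ hUW
    refine ⟨W.comap g.toLinearMap, h.up X _ hX ?_, ?_⟩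
    · exact Submodule.map_le_iff_le_comap.1 hUW
    · exact Submodule.map_comap_eq_of_surjective g.surjective W
  · rintro U W ⟨X, hX, rfl⟩ ⟨Y, hY, rfl⟩
    refine ⟨X ⊓ Y, h.inf X Y hX hY, ?_⟩
    exact Submodule.map_inf _ g.injective

/-- the dichotomy for maximal filters -/
theorem IsMaxFilt.dich (h : IsMaxFilt 𝓕) (A : Submodule F V) : A ∈ 𝓕 ∨ ∃ W ∈ 𝓕, A ⊓ W = ⊥ := by
  by_contra hcon
  push Not at hcon
  obtain ⟨hA, hW⟩ := hcon
  have hG : IsFilt {X : Submodule F V | ∃ W ∈ 𝓕, A ⊓ W ≤ X} := by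
    refine ⟨⟨⊤, h.1.top_mem, le_top⟩, ?_, ?_, ?_⟩
    · rintro ⟨W, hW1, hW2⟩
      exact hW W hW1 (le_bot_iff.1 hW2)
    · rintro U W ⟨X, hX, hXU⟩ hUW
      exact ⟨X, hX, hXU.trans hUW⟩
    · rintro U W ⟨X, hX, hXU⟩ ⟨Y, hY, hYW⟩
      refine ⟨X ⊓ Y, h.1.inf X Y hX hY, le_inf ?_ ?_⟩
      · exact (inf_le_inf_left A inf_le_left).trans hXU
      · exact (inf_le_inf_left A inf_le_right).trans hYW
  have h1 := h.2 _ hG (fun W hW => ⟨W, hW, inf_le_right⟩)
  apply hA
  rw [← h1]
  exact ⟨⊤, h.1.top_mem, inf_le_left⟩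

theorem eq_of_subset (h : IsMaxFilt 𝓕) (g : V ≃ₗ[F] V) (hg : translate g 𝓕 ⊆ 𝓕) :
    translate g 𝓕 = 𝓕 := by
  have h1 : 𝓕 ⊆ translate g.symm 𝓕 := by
    have := Set.image_mono (f := fun U : Submodule F V => U.map g.symm.toLinearMap) hg
    have e : translate g.symm (translate g 𝓕) ⊆ translate g.symm 𝓕 := this
    rwa [translate_symm] at e
  have h2 := h.2 _ h.1.translate h1
  calc translate g 𝓕 = translate g (translate g.symm 𝓕) := by rw [h2]
    _ = 𝓕 := translate_symm' g 𝓕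

/-- separation of distinct translates -/
theorem sep (h : IsMaxFilt 𝓕) (p : V ≃ₗ[F] V) (hp : translate p 𝓕 ≠ 𝓕) :
    ∃ X ∈ 𝓕, X ⊓ X.map p.toLinearMap = ⊥ := by
  by_contra hcon
  push Not at hcon
  have hG : IsFilt {Z : Submodule F V | ∃ X ∈ 𝓕, X ⊓ X.map p.toLinearMap ≤ Z} := by
    refine ⟨⟨⊤, h.1.top_mem, le_top⟩, ?_, ?_, ?_⟩
    · rintro ⟨W, hW1, hW2⟩
      exact hcon W hW1 (le_bot_iff.1 hW2)
    · rintro U W ⟨X, hX, hXU⟩ hUW
      exact ⟨X, hX, hXU.trans hUW⟩
    · rintro U W ⟨X, hX, hXU⟩ ⟨Y, hY, hYW⟩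
      refine ⟨X ⊓ Y, h.1.inf X Y hX hY, le_inf ?_ ?_⟩
      · exact (inf_le_inf inf_le_left (Submodule.map_mono inf_le_left)).trans hXU
      · exact (inf_le_inf inf_le_right (Submodule.map_mono inf_le_right)).trans hYW
  have h1 := h.2 _ hG (fun W hW => ⟨W, hW, inf_le_left⟩)
  apply hp
  apply eq_of_subset h
  rintro _ ⟨X, hX, rfl⟩
  rw [← h1]
  exact ⟨X, hX, inf_le_right⟩

theorem rank_quot_mono {X Y : Submodule F V} (h : X ≤ Y) :
    Module.rank F (V ⧸ Y) ≤ Module.rank F (V ⧸ X) :=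
  LinearMap.rank_le_of_surjective (Submodule.factor h) (Submodule.factor_surjective h)

theorem rank_quot_le (X : Submodule F V) : Module.rank F (V ⧸ X) ≤ Module.rank F V :=
  LinearMap.rank_le_of_surjective X.mkQ X.mkQ_surjective

/-- if `A ∩ W = 0`, then `A` embeds into `V / W` -/
theorem rank_le_quot {A W : Submodule F V} (h : A ⊓ W = ⊥) :
    Module.rank F A ≤ Module.rank F (V ⧸ W) := by
  apply LinearMap.rank_le_of_injective (W.mkQ ∘ₗ A.subtype)
  rw [← LinearMap.ker_eq_bot, eq_bot_iff]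
  intro a ha
  have h1 : (a : V) ∈ W := by
    have : W.mkQ (a : V) = 0 := ha
    rwa [Submodule.mkQ_apply, Submodule.Quotient.mk_eq_zero] at this
  have h2 : (a : V) ∈ A ⊓ W := ⟨a.2, h1⟩
  rw [h, Submodule.mem_bot] at h2
  rw [Submodule.mem_bot]
  exact Subtype.ext h2

theorem rank_quot_of_lt (hV : ℵ₀ ≤ Module.rank F V) {X : Submodule F V}
    (h : Module.rank F X < Module.rank F V) : Module.rank F (V ⧸ X) = Module.rank F V := by
  apply le_antisymm (rank_quot_le X)
  by_contra hcon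
  have h1 := Cardinal.add_lt_of_lt hV (not_le.1 hcon) h
  rw [Submodule.rank_quotient_add_rank] at h1
  exact lt_irrefl _ h1

/-- every element of rank `κ` of a maximal filter has a member of the filter of relative
codimension `κ` inside it -/
theorem shrink (h : IsMaxFilt 𝓕) (hV : ℵ₀ ≤ Module.rank F V) {X : Submodule F V} (hX : X ∈ 𝓕)
    (hr : Module.rank F X = Module.rank F V) :
    ∃ Z ∈ 𝓕, Z ≤ X ∧ ∃ B : Submodule F V, B ≤ X ∧ B ⊓ Z = ⊥ ∧ Module.rank F B = Module.rank F V := by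
  have h1 : Module.rank F X = Module.rank F (X × X) := by
    rw [rank_prod', Cardinal.add_eq_self (by rw [hr]; exact hV)]
  obtain ⟨e⟩ := nonempty_linearEquiv_of_rank_eq h1
  let i1 : X →ₗ[F] V := X.subtype ∘ₗ e.symm.toLinearMap ∘ₗ LinearMap.inl F X X
  let i2 : X →ₗ[F] V := X.subtype ∘ₗ e.symm.toLinearMap ∘ₗ LinearMap.inr F X X
  have hi1 : Function.Injective i1 := by
    intro a b hab
    have : e.symm (a, 0) = e.symm (b, 0) := Subtype.ext hab
    have := e.symm.injective this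
    exact (Prod.mk.inj this).1
  have hi2 : Function.Injective i2 := by
    intro a b hab
    have : e.symm (0, a) = e.symm (0, b) := Subtype.ext hab
    have := e.symm.injective this
    exact (Prod.mk.inj this).2
  have hle1 : LinearMap.range i1 ≤ X := by rintro _ ⟨a, rfl⟩; exact (e.symm (a, 0)).2
  have hle2 : LinearMap.range i2 ≤ X := by rintro _ ⟨a, rfl⟩; exact (e.symm (0, a)).2
  have hdis : LinearMap.range i2 ⊓ LinearMap.range i1 = ⊥ := by
    rw [eq_bot_iff]
    rintro _ ⟨⟨a, rfl⟩, ⟨b, hb⟩⟩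
    have : e.symm (b, 0) = e.symm (0, a) := Subtype.ext hb
    have := e.symm.injective this
    have ha : a = 0 := (Prod.mk.inj this).2.symm
    rw [ha, map_zero]; exact Submodule.zero_mem _
  have hr1 : Module.rank F (LinearMap.range i1) = Module.rank F V := by
    rw [← (LinearEquiv.ofInjective i1 hi1).rank_eq, hr]
  have hr2 : Module.rank F (LinearMap.range i2) = Module.rank F V := by
    rw [← (LinearEquiv.ofInjective i2 hi2).rank_eq, hr]
  rcases h.dich (LinearMap.range i1) with hA | ⟨W, hW, hAW⟩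
  · exact ⟨_, hA, hle1, _, hle2, hdis, hr2⟩
  · refine ⟨W ⊓ X, h.1.inf W X hW hX, inf_le_right, _, hle1, ?_, hr1⟩
    rw [eq_bot_iff, ← hAW]
    exact inf_le_inf_left _ inf_le_left

/-- a member `Z` of the filter such that `Z ∩ pZ = 0` and `Z + pZ` has codimension `κ` -/
theorem good_member (h : IsMaxFilt 𝓕) (hV : ℵ₀ ≤ Module.rank F V) (p : V ≃ₗ[F] V)
    (hp : translate p 𝓕 ≠ 𝓕) :
    ∃ Z ∈ 𝓕, Z ⊓ Z.map p.toLinearMap = ⊥ ∧
      Module.rank F (V ⧸ (Z ⊔ Z.map p.toLinearMap)) = Module.rank F V := by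
  obtain ⟨X, hX, hXp⟩ := sep h p hp
  have hle : Module.rank F X ≤ Module.rank F V :=
    LinearMap.rank_le_of_injective X.subtype X.injective_subtype
  rcases hle.lt_or_eq with hlt | heq
  · refine ⟨X, hX, hXp, rank_quot_of_lt hV ?_⟩
    have h1 : Module.rank F (X.map p.toLinearMap) = Module.rank F X :=
      ((p.submoduleMap X).rank_eq).symm
    refine (Submodule.rank_add_le_rank_add_rank X (X.map p.toLinearMap)).trans_lt ?_
    rw [h1]
    exact Cardinal.add_lt_of_lt hV hlt hlt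
  · obtain ⟨Z, hZ, hZX, B, hBX, hBZ, hB⟩ := shrink h hV hX heq
    refine ⟨Z, hZ, ?_, le_antisymm (rank_quot_le _) ?_⟩
    · rw [eq_bot_iff, ← hXp]
      exact inf_le_inf hZX (Submodule.map_mono hZX)
    · rw [← hB]
      apply rank_le_quot
      rw [eq_bot_iff]
      rintro b ⟨hb1, hb2⟩
      obtain ⟨z, hz, w, hw, hzw⟩ := Submodule.mem_sup.1 hb2
      have h1 : w ∈ X ⊓ X.map p.toLinearMap := by
        refine ⟨?_, Submodule.map_mono hZX hw⟩
        have : w = b - z := by rw [← hzw]; abel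
        rw [this]
        exact X.sub_mem (hBX hb1) (hZX hz)
      rw [hXp, Submodule.mem_bot] at h1
      rw [h1, add_zero] at hzw
      rw [← hBZ]
      exact ⟨hb1, hzw ▸ hz⟩

/-- two pairs of distinct translates sharing the first member -/
theorem two_key (h : IsMaxFilt 𝓕) (hV : ℵ₀ ≤ Module.rank F V) (p q : V ≃ₗ[F] V)
    (hp : translate p 𝓕 ≠ 𝓕) (hq : translate q 𝓕 ≠ 𝓕) :
    ∃ k : V ≃ₗ[F] V, translate k 𝓕 = 𝓕 ∧ translate k (translate p 𝓕) = translate q 𝓕 := by
  obtain ⟨Z1, hZ1, hd1, hc1⟩ := good_member h hV p hp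
  obtain ⟨Z2, hZ2, hd2, hc2⟩ := good_member h hV q hq
  set Z := Z1 ⊓ Z2 with hZdef
  have hZ : Z ∈ 𝓕 := h.1.inf _ _ hZ1 hZ2
  -- the two maps
  let mk : (V ≃ₗ[F] V) → (Z × Z →ₗ[F] V) := fun g =>
    Z.subtype.coprod (g.toLinearMap ∘ₗ Z.subtype)
  have hmk : ∀ g z z', mk g (z, z') = (z : V) + g (z' : V) := fun g z z' => by simp [mk]
  have hinj : ∀ (g : V ≃ₗ[F] V) (Y : Submodule F V), Z ≤ Y → Y ⊓ Y.map g.toLinearMap = ⊥ →
      Function.Injective (mk g) := by
    intro g Y hZY hd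
    rw [← LinearMap.ker_eq_bot, eq_bot_iff]
    rintro ⟨z, z'⟩ hz
    have h1 : (z : V) + g (z' : V) = 0 := by rw [← hmk]; exact hz
    have h2 : g (z' : V) ∈ Y ⊓ Y.map g.toLinearMap := by
      refine ⟨?_, ⟨(z' : V), hZY z'.2, rfl⟩⟩
      have : g (z' : V) = -(z : V) := by rw [eq_neg_iff_add_eq_zero, add_comm]; exact h1
      rw [this]
      exact Y.neg_mem (hZY z.2)
    rw [hd, Submodule.mem_bot] at h2
    rw [h2, add_zero] at h1
    have h3 : (z' : V) = 0 := by simpa using h2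
    rw [Submodule.mem_bot]
    exact Prod.ext (Subtype.ext h1) (Subtype.ext h3)
  have hcod : ∀ (g : V ≃ₗ[F] V) (Y : Submodule F V), Z ≤ Y →
      Module.rank F (V ⧸ (Y ⊔ Y.map g.toLinearMap)) = Module.rank F V →
      Module.rank F (V ⧸ LinearMap.range (mk g)) = Module.rank F V := by
    intro g Y hZY hc
    apply le_antisymm (rank_quot_le _)
    rw [← hc]
    apply rank_quot_mono
    rintro _ ⟨⟨z, z'⟩, rfl⟩
    rw [hmk]
    exact Submodule.add_mem_sup (hZY z.2) ⟨(z' : V), hZY z'.2, rfl⟩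
  obtain ⟨k, hk⟩ := exists_extend (mk p) (mk q) (hinj p Z1 inf_le_left hd1)
    (hinj q Z2 inf_le_right hd2)
    ((hcod p Z1 inf_le_left hc1).trans (hcod q Z2 inf_le_right hc2).symm)
  have hk1 : ∀ z ∈ Z, k z = z := by
    intro z hz
    have := hk (⟨z, hz⟩, 0)
    rw [hmk, hmk] at this
    simpa using this
  have hk2 : ∀ z ∈ Z, k (p z) = q z := by
    intro z hz
    have := hk (0, ⟨z, hz⟩)
    rw [hmk, hmk] at this
    simpa using this
  refine ⟨k, ?_, ?_⟩
  · apply eq_of_subset h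
    rintro _ ⟨X, hX, rfl⟩
    refine h.1.up (X ⊓ Z) _ (h.1.inf _ _ hX hZ) ?_
    intro x hx
    exact ⟨x, hx.1, hk1 x hx.2⟩
  · -- it suffices to show `q⁻¹ k p 𝓕 ⊆ 𝓕`
    have h1 : translate ((p ≪≫ₗ k) ≪≫ₗ q.symm) 𝓕 = 𝓕 := by
      apply eq_of_subset h
      rintro _ ⟨X, hX, rfl⟩
      refine h.1.up (X ⊓ Z) _ (h.1.inf _ _ hX hZ) ?_
      intro x hx
      refine ⟨x, hx.1, ?_⟩
      change q.symm (k (p x)) = x
      rw [hk2 x hx.2, LinearEquiv.symm_apply_apply]
    have h2 := congrArg (translate q) h1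
    rw [translate_trans] at h2
    rw [translate_trans, ← h2]
    congr 1
    ext x
    simp

/-- a maximal filter has a member of codimension `κ` -/
theorem exists_big (h : IsMaxFilt 𝓕) (hV : ℵ₀ ≤ Module.rank F V) :
    ∃ U ∈ 𝓕, Module.rank F (V ⧸ U) = Module.rank F V := by
  have htop : Module.rank F (⊤ : Submodule F V) = Module.rank F V := rank_top F V
  obtain ⟨Z, hZ, _, B, _, hBZ, hB⟩ := shrink h hV h.1.top_mem htop
  refine ⟨Z, hZ, le_antisymm (rank_quot_le _) ?_⟩
  rw [← hB]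
  exact rank_le_quot hBZ

/-- a vector space of infinite dimension `κ` is `(⊕_ℕ U) ⊕ V` if `dim U ≤ κ` -/
theorem exists_split (hV : ℵ₀ ≤ Module.rank F V) (U : Submodule F V) :
    Nonempty (V ≃ₗ[F] (ℕ →₀ U) × V) := by
  apply nonempty_linearEquiv_of_rank_eq
  have hle : Module.rank F U ≤ Module.rank F V :=
    LinearMap.rank_le_of_injective U.subtype U.injective_subtype
  rw [rank_prod', rank_finsupp]
  simp only [Cardinal.mk_nat, Cardinal.lift_aleph0, Cardinal.lift_id]
  symm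
  apply Cardinal.add_eq_right hV
  calc ℵ₀ * Cardinal.lift (Module.rank F U) ≤ Module.rank F V * Module.rank F V := by
        apply mul_le_mul' hV
        simpa using hle
    _ = Module.rank F V := Cardinal.mul_eq_self hV

/-- The action of `GL(V)` on the translates of a maximal filter is `k`-transitive exactly for
`k ≤ 2`. -/
theorem not_three (h : IsMaxFilt 𝓕) (hV : ℵ₀ ≤ Module.rank F V) (k : ℕ) (hk : 3 ≤ k) :
    ¬ KTransitive k 𝓕 := by
  intro hT
  obtain ⟨U, hU, hUc⟩ := exists_big h hV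
  obtain ⟨e⟩ := exists_split hV U
  -- the copies of `U`
  let j : ((ℕ →₀ U)) →ₗ[F] V := e.symm.toLinearMap ∘ₗ LinearMap.inl F (ℕ →₀ U) V
  have hj : Function.Injective j := by
    intro a b hab
    have := e.symm.injective (show e.symm (a, 0) = e.symm (b, 0) from hab)
    exact (Prod.mk.inj this).1
  have hjc : ∀ i : U →ₗ[F] (ℕ →₀ U),
      Module.rank F (V ⧸ LinearMap.range (j ∘ₗ i)) = Module.rank F V := by
    intro i
    apply le_antisymm (rank_quot_le _)
    let π : V →ₗ[F] V := LinearMap.snd F (ℕ →₀ U) V ∘ₗ e.toLinearMap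
    have hπ : LinearMap.range (j ∘ₗ i) ≤ LinearMap.ker π := by
      rintro _ ⟨u, rfl⟩
      simp [π, j]
    apply LinearMap.rank_le_of_surjective ((LinearMap.range (j ∘ₗ i)).liftQ π hπ)
    intro v
    refine ⟨Submodule.Quotient.mk (e.symm (0, v)), ?_⟩
    simp [π]
  have hext : ∀ i : U →ₗ[F] (ℕ →₀ U), Function.Injective i →
      ∃ g : V ≃ₗ[F] V, ∀ u : U, g (u : V) = j (i u) := by
    intro i hi
    obtain ⟨g, hg⟩ := exists_extend U.subtype (j ∘ₗ i) U.injective_subtype (hj.comp hi)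
      (by rw [Submodule.range_subtype, hUc, hjc])
    exact ⟨g, hg⟩
  have hsing : ∀ n : ℕ, Function.Injective (Finsupp.lsingle n : U →ₗ[F] (ℕ →₀ U)) := fun n =>
    Finsupp.single_injective n
  choose g hg using fun n : ℕ => hext (Finsupp.lsingle n) (hsing n)
  obtain ⟨g', hg'⟩ := hext (Finsupp.lsingle 0 + Finsupp.lsingle 1) (by
    intro a b hab
    have := DFunLike.congr_fun hab 0
    simpa using this)
  simp only [Finsupp.lsingle_apply] at hg
  simp only [LinearMap.add_apply, Finsupp.lsingle_apply] at hg'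
  -- the translates are pairwise distinct
  have hdis : ∀ f f' : V ≃ₗ[F] V, (∀ u u' : U, f u = f' u' → u = 0) →
      translate f 𝓕 ≠ translate f' 𝓕 := by
    intro f f' hff heq
    have h1 : U.map f.toLinearMap ∈ translate f 𝓕 := ⟨U, hU, rfl⟩
    have h2 : U.map f'.toLinearMap ∈ translate f' 𝓕 := ⟨U, hU, rfl⟩
    rw [← heq] at h2
    have h3 := (IsFilt.translate (g := f) h.1).inf _ _ h1 h2
    have h4 : U.map f.toLinearMap ⊓ U.map f'.toLinearMap = ⊥ := by
      rw [eq_bot_iff]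
      rintro _ ⟨⟨u, hu, rfl⟩, ⟨u', hu', huu⟩⟩
      have := hff ⟨u, hu⟩ ⟨u', hu'⟩ huu.symm
      have hu0 : u = 0 := congrArg Subtype.val this
      subst hu0
      simp
    rw [h4] at h3
    exact (IsFilt.translate (g := f) h.1).bot_notMem h3
  have hne : ∀ n m : ℕ, n ≠ m → translate (g n) 𝓕 ≠ translate (g m) 𝓕 := by
    intro n m hnm
    apply hdis
    intro u u' huu
    rw [hg, hg] at huu
    have := DFunLike.congr_fun (hj huu) n
    simpa [Finsupp.single_apply, hnm.symm] using this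
  have hne' : ∀ n : ℕ, translate g' 𝓕 ≠ translate (g n) 𝓕 := by
    intro n
    apply hdis
    intro u u' huu
    rw [hg, hg'] at huu
    by_cases hn : n = 0
    · subst hn
      have := DFunLike.congr_fun (hj huu) 1
      simpa [Finsupp.single_apply] using this
    · have := DFunLike.congr_fun (hj huu) 0
      simpa [Finsupp.single_apply, hn] using this
  let i0 : Fin k := ⟨0, by omega⟩
  let i1 : Fin k := ⟨1, by omega⟩
  let i2 : Fin k := ⟨2, by omega⟩
  obtain ⟨t, ht⟩ := hT (fun i => translate (g i) 𝓕)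
    (fun i => if i = i2 then translate g' 𝓕 else translate (g i) 𝓕)
    (fun i => ⟨_, rfl⟩)
    (by
      intro a b hab
      by_contra hne2
      exact hne a b (fun hh => hne2 (Fin.ext hh)) hab)
    (by
      intro i
      by_cases hi : i = i2
      · simp only [hi, if_true]; exact ⟨_, rfl⟩
      · simp only [hi, if_false]; exact ⟨_, rfl⟩)
    (by
      intro a b hab
      by_contra hne2
      by_cases ha : a = i2
      · have hb : b ≠ i2 := fun hb => hne2 (ha.trans hb.symm)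
        simp only [ha, hb, if_true, if_false] at hab
        exact hne' _ hab
      · by_cases hb : b = i2
        · simp only [ha, hb, if_true, if_false] at hab
          exact hne' _ hab.symm
        · simp only [ha, hb, if_false] at hab
          exact hne a b (fun hh => hne2 (Fin.ext hh)) hab)
  have h01 : i0 ≠ i2 := by intro hh; have := congrArg Fin.val hh; simp [i0, i2] at this
  have h12 : i1 ≠ i2 := by intro hh; have := congrArg Fin.val hh; simp [i1, i2] at this
  have t0 : translate t (translate (g 0) 𝓕) = translate (g 0) 𝓕 := by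
    have := ht i0; simpa only [h01, if_false] using this
  have t1 : translate t (translate (g 1) 𝓕) = translate (g 1) 𝓕 := by
    have := ht i1; simpa only [h12, if_false] using this
  have t2 : translate t (translate (g 2) 𝓕) = translate g' 𝓕 := by
    have := ht i2; simpa only [if_true] using this
  -- the images of the copies of `U`
  have im : ∀ f f' : V ≃ₗ[F] V, translate t (translate f 𝓕) = translate f' 𝓕 →
      ∃ X ∈ 𝓕, X.map f'.toLinearMap = (U.map f.toLinearMap).map t.toLinearMap := by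
    intro f f' hff
    have : (U.map f.toLinearMap).map t.toLinearMap ∈ translate f' 𝓕 := by
      rw [← hff]; exact ⟨_, ⟨U, hU, rfl⟩, rfl⟩
    exact this
  obtain ⟨X0, hX0, e0⟩ := im _ _ t0
  obtain ⟨X1, hX1, e1⟩ := im _ _ t1
  obtain ⟨X2, hX2, e2⟩ := im _ _ t2
  have hX : X0 ⊓ X1 ⊓ X2 ⊓ U ∈ 𝓕 := h.1.inf _ _ (h.1.inf _ _ (h.1.inf _ _ hX0 hX1) hX2) hU
  have hne0 : X0 ⊓ X1 ⊓ X2 ⊓ U ≠ ⊥ := fun hh => h.1.bot_notMem (hh ▸ hX)
  obtain ⟨u, hu, hu0⟩ := Submodule.exists_mem_ne_zero_of_ne_bot hne0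
  obtain ⟨⟨⟨hu1, hu2⟩, hu3⟩, hu4⟩ := hu
  have m0 : g 0 u ∈ (U.map (g 0).toLinearMap).map t.toLinearMap := by
    rw [← e0]; exact ⟨u, hu1, rfl⟩
  have m1 : g 1 u ∈ (U.map (g 1).toLinearMap).map t.toLinearMap := by
    rw [← e1]; exact ⟨u, hu2, rfl⟩
  have m2 : g' u ∈ (U.map (g 2).toLinearMap).map t.toLinearMap := by
    rw [← e2]; exact ⟨u, hu3, rfl⟩
  obtain ⟨_, ⟨u0, hu0', rfl⟩, m0⟩ := m0
  obtain ⟨_, ⟨u1, hu1', rfl⟩, m1⟩ := m1
  obtain ⟨_, ⟨u2, hu2', rfl⟩, m2⟩ := m2
  have r0 : t (j (Finsupp.single 0 ⟨u0, hu0'⟩)) = j (Finsupp.single 0 ⟨u, hu4⟩) := by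
    rw [← hg 0 ⟨u0, hu0'⟩, ← hg 0 ⟨u, hu4⟩]; exact m0
  have r1 : t (j (Finsupp.single 1 ⟨u1, hu1'⟩)) = j (Finsupp.single 1 ⟨u, hu4⟩) := by
    rw [← hg 1 ⟨u1, hu1'⟩, ← hg 1 ⟨u, hu4⟩]; exact m1
  have r2 : t (j (Finsupp.single 2 ⟨u2, hu2'⟩)) =
      j (Finsupp.single 0 ⟨u, hu4⟩ + Finsupp.single 1 ⟨u, hu4⟩) := by
    rw [← hg 2 ⟨u2, hu2'⟩, ← hg' ⟨u, hu4⟩]; exact m2
  rw [map_add, ← r0, ← r1, ← map_add, ← map_add] at r2
  have r3 := DFunLike.congr_fun (hj (t.injective r2)) 0
  have r4 : (⟨u0, hu0'⟩ : U) = 0 := by simpa [Finsupp.single_apply] using r3.symm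
  rw [r4, Finsupp.single_zero, map_zero, map_zero] at r0
  have r5 := DFunLike.congr_fun (hj ((map_zero j).trans r0)) 0
  have r6 : (⟨u, hu4⟩ : U) = 0 := by simpa using r5.symm
  exact hu0 (congrArg Subtype.val r6)

end

/-- Let `V` be a vector space of infinite dimension over a field and `𝓕` a maximal filter of
subspaces of `V`.  The action of `GL(V)` on the translates of `𝓕` is `k`-transitive if and only if
`k ≤ 2`; that is, its degree of transitivity is exactly `2`. -/
theorem result (F : Type u) (V : Type v) [Field F] [AddCommGroup V] [Module F V]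
    (hV : ℵ₀ ≤ Module.rank F V) (𝓕 : Set (Submodule F V)) (h𝓕 : IsMaxFilt 𝓕) (k : ℕ) :
    KTransitive k 𝓕 ↔ k ≤ 2 := by
  constructor
  · intro hT
    by_contra hk
    exact not_three h𝓕 hV k (by omega) hT
  · intro hk a b ha hai hb hbi
    interval_cases k
    · exact ⟨LinearEquiv.refl F V, fun i => i.elim0⟩
    · obtain ⟨g, hg⟩ := ha 0
      obtain ⟨g', hg'⟩ := hb 0
      refine ⟨g.symm ≪≫ₗ g', fun i => ?_⟩
      rw [Subsingleton.elim i 0, hg, hg', ← translate_trans, translate_symm]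
    · obtain ⟨g0, hg0⟩ := ha 0
      obtain ⟨g1, hg1⟩ := ha 1
      obtain ⟨h0, hh0⟩ := hb 0
      obtain ⟨h1, hh1⟩ := hb 1
      have hp : translate (g1 ≪≫ₗ g0.symm) 𝓕 ≠ 𝓕 := by
        intro hcon
        rw [← translate_trans] at hcon
        have := congrArg (translate g0) hcon
        rw [translate_symm', ← hg0, ← hg1] at this
        exact absurd (hai this) (by decide)
      have hq : translate (h1 ≪≫ₗ h0.symm) 𝓕 ≠ 𝓕 := by
        intro hcon
        rw [← translate_trans] at hcon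
        have := congrArg (translate h0) hcon
        rw [translate_symm', ← hh0, ← hh1] at this
        exact absurd (hbi this) (by decide)
      obtain ⟨t, ht0, ht1⟩ := two_key h𝓕 hV _ _ hp hq
      refine ⟨g0.symm ≪≫ₗ t ≪≫ₗ h0, fun i => ?_⟩
      rw [← translate_trans, ← translate_trans]
      fin_cases i
      · change translate h0 (translate t (translate g0.symm (a 0))) = b 0
        rw [hg0, translate_symm, ht0, hh0]
      · change translate h0 (translate t (translate g0.symm (a 1))) = b 1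
        rw [hg1, translate_trans g0.symm, ht1, ← translate_trans, translate_symm', hh1]

end Pool.Agent.Results.MP_5cf805_al.FilterDegreeTwo
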